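import Mathlib
import Pool.Agent.H351R3.NotKan

/-!
# Fibrancy of iterated `Ex` of nerves of categories (Beke's question)

For every `n ≥ 1` there is a category `C` (in fact a finite poset) such that `Ex^n N C` is a Kan
complex while `Ex^(n-1) N C` is not. For `n = 1` one takes the poset `{0 < 1}`; for `n ≥ 2` one
takes a fence (zigzag poset) with `2 ^ (n - 1) + 1` elements whose end points are maximal.

The functor `SSet.ex` (the right adjoint of barycentric subdivision), the nerve and the predicate
`SSet.KanComplex` are those of Mathlib.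
-/

namespace Pool.Agent.Results.MP_61b90e_gt.IteratedExFibrancy

open CategoryTheory Pool.Agent.H351R3

instance finite_fence (r : ℕ) : Finite (Fence r) := by
  have h : Function.Injective (fun x : Fence r => (⟨x.val, x.nonneg, x.le_two_mul⟩ :
      Set.Icc (0 : ℤ) (2 * r))) := by
    intro x y hxy
    exact Fence.ext (congrArg (fun z : Set.Icc (0 : ℤ) (2 * r) => (z : ℤ)) hxy)
  exact Finite.of_injective _ h

/-- **Answer to the question.** For every `n ≥ 1` there is a finite poset `C`, viewed as a
category, such that `Ex^n` of the nerve of `C` is a Kan complex and `Ex^(n-1)` of it is not. -/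
theorem result : ∀ n : ℕ, 1 ≤ n → ∃ (C : Type) (_ : PartialOrder C) (_ : Finite C),
    SSet.KanComplex ((SSet.ex.{0}.obj)^[n] (nerve C)) ∧
      ¬ SSet.KanComplex ((SSet.ex.{0}.obj)^[n - 1] (nerve C)) := by
  intro n hn
  rcases Nat.lt_or_ge n 2 with h2 | h2
  · obtain rfl : n = 1 := by omega
    refine ⟨Fin 2, inferInstance, inferInstance, ?_, ?_⟩
    · exact (kan_iff 1 (PartOrd.of (Fin 2))).2
        (hornExt_one_of_top (PartOrd.of (Fin 2)) (1 : Fin 2) (fun x => Fin.le_last x))
    · exact fun h => not_hornExt_zero ((kan_iff 0 (PartOrd.of (Fin 2))).1 h)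
  · obtain ⟨k, rfl⟩ := Nat.exists_eq_add_of_le' h2
    refine ⟨Fence (2 ^ k), inferInstance, inferInstance, ?_, ?_⟩
    · have h1 : 1 ≤ 2 ^ k := Nat.one_le_two_pow
      have h3 : 2 ^ k ≤ 2 ^ (k + 1) - 1 := by
        rw [pow_succ]
        omega
      exact (kan_iff (k + 2) (fenceP (2 ^ k))).2 (hornExt_fence k (2 ^ k) h1 h3)
    · exact fun h => not_hornExt_fence k (2 ^ k) le_rfl ((kan_iff (k + 1) (fenceP (2 ^ k))).1 h)

end Pool.Agent.Results.MP_61b90e_gt.IteratedExFibrancy
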